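import Mathlib
import Pool.Agent.H392Z.MO.Spec2

set_option autoImplicit false

open Filter Topology Finset

namespace Pool.Agent.H676Z.MO

open Pool.Agent.H392Z.MO

lemma ev_log (a C : ℝ) (ha : 0 < a) (k : ℕ) :
    ∀ᶠ t : ℝ in atTop, C * Real.log t ^ k ≤ t ^ a := by
  have hc : 0 < 1 / (|C| + 1) := by positivity
  have h := (isLittleO_log_rpow_rpow_atTop (k : ℝ) ha).bound hc
  filter_upwards [h, eventually_ge_atTop (1 : ℝ)] with t ht ht1
  have hl : 0 ≤ Real.log t := Real.log_nonneg ht1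
  have h0 : 0 ≤ t ^ a := Real.rpow_nonneg (by linarith) _
  rw [Real.rpow_natCast, Real.norm_of_nonneg (pow_nonneg hl _), Real.norm_of_nonneg h0] at ht
  have h1 : C * Real.log t ^ k ≤ (|C| + 1) * Real.log t ^ k :=
    mul_le_mul_of_nonneg_right (by linarith [le_abs_self C]) (pow_nonneg hl _)
  have h2 : (|C| + 1) * Real.log t ^ k ≤ (|C| + 1) * (1 / (|C| + 1) * t ^ a) :=
    mul_le_mul_of_nonneg_left ht (by positivity)
  have h3 : (|C| + 1) * (1 / (|C| + 1) * t ^ a) = t ^ a := by field_simp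
  linarith

lemma tendsto_tt {A : ℝ} (hA : 0 < A) : Tendsto (fun i : ℕ => tt A i) atTop atTop :=
  (tendsto_rpow_atTop hA).comp tendsto_natCast_atTop_atTop

lemma mem_B {A : ℝ} {i n : ℕ} : n ∈ B A i ↔ tt A i ≤ n ∧ (n : ℝ) < tt A (i + 1) := by
  unfold B
  rw [Finset.mem_Ico, Nat.ceil_le, Nat.lt_ceil]

lemma tt_mono {A : ℝ} (hA : 0 ≤ A) {i j : ℕ} (h : i ≤ j) : tt A i ≤ tt A j :=
  Real.rpow_le_rpow (Nat.cast_nonneg _) (by exact_mod_cast h) hA

lemma tt_nonneg (A : ℝ) (i : ℕ) : 0 ≤ tt A i := Real.rpow_nonneg (Nat.cast_nonneg _) _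

lemma le_blk_iff {A : ℝ} (hA : 0 < A) {k n : ℕ} : k ≤ blk A n ↔ tt A k ≤ n := by
  unfold blk tt
  rw [Nat.le_floor_iff (Real.rpow_nonneg (Nat.cast_nonneg _) _), one_div,
    Real.le_rpow_inv_iff_of_pos (Nat.cast_nonneg _) (Nat.cast_nonneg _) hA]

lemma mem_B_blk {A : ℝ} (hA : 0 < A) (n : ℕ) : n ∈ B A (blk A n) := by
  rw [mem_B]
  refine ⟨(le_blk_iff hA).1 le_rfl, ?_⟩
  by_contra h
  have := (le_blk_iff hA).2 (not_lt.1 h)
  omega

lemma tendsto_blk {A : ℝ} (hA : 0 < A) : Tendsto (fun n : ℕ => blk A n) atTop atTop := by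
  refine tendsto_atTop.2 fun k => ?_
  filter_upwards [eventually_ge_atTop ⌈tt A k⌉₊] with n hn
  exact (le_blk_iff hA).2 (Nat.ceil_le.1 hn)

lemma tt_succ_le {A : ℝ} (hA0 : 0 ≤ A) (hA : A ≤ 2) {i : ℕ} (hi : 3 ≤ i) :
    tt A (i + 1) ≤ 2 * tt A i := by
  unfold tt
  have hi' : (3 : ℝ) ≤ i := by exact_mod_cast hi
  have h1 : ((i + 1 : ℕ) : ℝ) ≤ (4 / 3) * i := by push_cast; linarith
  have h2 : ((i + 1 : ℕ) : ℝ) ^ A ≤ ((4 / 3) * (i : ℝ)) ^ A :=
    Real.rpow_le_rpow (Nat.cast_nonneg _) h1 hA0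
  rw [Real.mul_rpow (by norm_num) (by linarith)] at h2
  have h3 : (4 / 3 : ℝ) ^ A ≤ (4 / 3 : ℝ) ^ (2 : ℝ) :=
    Real.rpow_le_rpow_of_exponent_le (by norm_num) hA
  have h4 : (4 / 3 : ℝ) ^ (2 : ℝ) ≤ 2 := by
    rw [Real.rpow_two]; norm_num
  have h5 : 0 ≤ (i : ℝ) ^ A := Real.rpow_nonneg (by linarith) _
  nlinarith

lemma HH_pos (A : ℝ) {i : ℕ} (hi : 1 ≤ i) : 0 < HH A i :=
  Real.rpow_pos_of_pos (by exact_mod_cast hi) _

lemma card_B_le {A : ℝ} (hA1 : 1 ≤ A) (hA : A ≤ 2) {i : ℕ} (hi : 1 ≤ i) :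
    ((B A i).card : ℝ) ≤ 4 * HH A i := by
  have hi' : (1 : ℝ) ≤ i := by exact_mod_cast hi
  have hH1 : 1 ≤ HH A i := Real.one_le_rpow hi' (by linarith)
  have e1 : tt A i = HH A i * i := by
    unfold tt HH
    rw [← Real.rpow_add_one (by linarith)]; congr 1; ring
  have e2 : tt A (i + 1) ≤ HH A i * (i + 3) := by
    unfold tt HH
    have h1 : ((i + 1 : ℕ) : ℝ) = i * (1 + 1 / i) := by push_cast; field_simp
    have h2 : ((i + 1 : ℕ) : ℝ) ^ A = ((i + 1 : ℕ) : ℝ) ^ (A - 1) * ((i + 1 : ℕ) : ℝ) := by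
      rw [← Real.rpow_add_one (by positivity)]; congr 1; ring
    have h3 : ((i + 1 : ℕ) : ℝ) ^ (A - 1) ≤ (i : ℝ) ^ (A - 1) * (1 + 1 / i) := by
      rw [h1, Real.mul_rpow (by linarith) (by positivity)]
      refine mul_le_mul_of_nonneg_left ?_ (Real.rpow_nonneg (by linarith) _)
      have : (1 + 1 / (i : ℝ)) ^ (A - 1) ≤ (1 + 1 / (i : ℝ)) ^ (1 : ℝ) :=
        Real.rpow_le_rpow_of_exponent_le (by simp) (by linarith)
      rwa [Real.rpow_one] at this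
    rw [h2]
    have h4 : (1 + 1 / (i : ℝ)) * ((i + 1 : ℕ) : ℝ) ≤ i + 3 := by
      push_cast
      have : 1 / (i : ℝ) ≤ 1 := by rw [div_le_one (by linarith)]; exact hi'
      have h5 : 1 / (i : ℝ) * i = 1 := by field_simp
      nlinarith
    have h6 : 0 ≤ (i : ℝ) ^ (A - 1) := Real.rpow_nonneg (by linarith) _
    calc _ ≤ (i : ℝ) ^ (A - 1) * (1 + 1 / i) * ((i + 1 : ℕ) : ℝ) :=
          mul_le_mul_of_nonneg_right h3 (by positivity)
      _ = (i : ℝ) ^ (A - 1) * ((1 + 1 / i) * ((i + 1 : ℕ) : ℝ)) := by ring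
      _ ≤ _ := mul_le_mul_of_nonneg_left h4 h6
  unfold B
  rw [Nat.card_Ico]
  have hle : ⌈tt A i⌉₊ ≤ ⌈tt A (i + 1)⌉₊ := Nat.ceil_le_ceil (tt_mono (by linarith) (by omega))
  rw [Nat.cast_sub hle]
  have h7 := Nat.ceil_lt_add_one (tt_nonneg A (i + 1))
  have h8 := Nat.le_ceil (tt A i)
  nlinarith

lemma Act_subset (A κ σ : ℝ) (M : Set ℕ) (y : ℝ) (i : ℕ) : Act A κ σ M y i ⊆ B A i := by
  unfold Act
  intro n hn
  split_ifs at hn
  · simp only [Hand, Finset.mem_filter] at hn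
    exact hn.1
  · simp only [Free, Finset.mem_filter] at hn
    exact hn.1

lemma Act_of_mem {A κ σ : ℝ} {M : Set ℕ} (y : ℝ) {i : ℕ} (hi : i ∈ M) :
    Act A κ σ M y i = Hand A κ σ M i := by
  unfold Act
  rw [if_pos hi]

lemma phi_nonneg (ε : ℝ) {t : ℝ} (ht : 0 ≤ t) : 0 ≤ phi ε t :=
  div_nonneg (Real.rpow_nonneg ht _) (sq_nonneg _)

lemma phi_pos (ε : ℝ) {t : ℝ} (ht : 1 < t) : 0 < phi ε t :=
  div_pos (Real.rpow_pos_of_pos (by linarith) _) (pow_pos (Real.log_pos ht) _)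

lemma phi_lower {ε t n : ℝ} (hε : 0 ≤ ε) (hε1 : ε ≤ 1) (ht : 4 ≤ t) (h1 : t ≤ n) (h2 : n ≤ 2 * t) :
    3 / 16 * phi ε t ≤ phi ε n := by
  unfold phi
  have hlt : 0 < Real.log t := Real.log_pos (by linarith)
  have hln : 0 < Real.log n := Real.log_pos (by linarith)
  have h3 : Real.log n ≤ 3 / 2 * Real.log t := by
    have a1 : Real.log n ≤ Real.log (2 * t) := Real.log_le_log (by linarith) h2
    rw [Real.log_mul (by norm_num) (by linarith)] at a1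
    have a2 : Real.log 4 ≤ Real.log t := Real.log_le_log (by norm_num) ht
    have a3 : Real.log 4 = 2 * Real.log 2 := by
      rw [show (4 : ℝ) = 2 ^ 2 by norm_num, Real.log_pow]; norm_num
    linarith
  have h4 : t ^ (ε - 1) / 2 ≤ n ^ (ε - 1) := by
    have a1 : (2 * t) ^ (ε - 1) ≤ n ^ (ε - 1) :=
      Real.rpow_le_rpow_of_nonpos (by linarith) h2 (by linarith)
    rw [Real.mul_rpow (by norm_num) (by linarith)] at a1
    have a2 : (2 : ℝ) ^ (-1 : ℝ) ≤ (2 : ℝ) ^ (ε - 1) :=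
      Real.rpow_le_rpow_of_exponent_le (by norm_num) (by linarith)
    rw [Real.rpow_neg_one] at a2
    have a3 : 0 ≤ t ^ (ε - 1) := Real.rpow_nonneg (by linarith) _
    nlinarith
  have h5 : 0 ≤ t ^ (ε - 1) := Real.rpow_nonneg (by linarith) _
  rw [← mul_div_assoc, div_le_div_iff₀ (by positivity) (by positivity)]
  have h6 : Real.log n ^ 2 ≤ 9 / 4 * Real.log t ^ 2 := by nlinarith
  have h7 : 0 ≤ Real.log t ^ 2 := sq_nonneg _
  nlinarith [mul_le_mul_of_nonneg_left h6 h5, mul_le_mul_of_nonneg_right h4 h7]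

lemma phi_mul {ε t : ℝ} (ht : 0 < t) : phi ε t * t = t ^ ε / Real.log t ^ 2 := by
  unfold phi
  rw [div_mul_eq_mul_div, ← Real.rpow_add_one ht.ne']
  congr 2; ring

lemma phi_le {ε t : ℝ} (ht : 3 ≤ t) : phi ε t ≤ t ^ (ε - 1) := by
  unfold phi
  have h1 : 1 ≤ Real.log t := by
    rw [Real.le_log_iff_exp_le (by linarith)]
    have := Real.exp_one_lt_d9
    linarith
  exact div_le_self (Real.rpow_nonneg (by linarith) _) (by nlinarith)

lemma phi_HH {A ε : ℝ} {i : ℕ} (hi : 1 ≤ i) :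
    phi ε (tt A i) * HH A i = (i : ℝ) ^ (A * ε - 1) / (A * Real.log i) ^ 2 := by
  have hi' : (0 : ℝ) < i := by exact_mod_cast hi
  unfold phi tt HH
  rw [Real.log_rpow hi', ← Real.rpow_mul hi'.le, div_mul_eq_mul_div, ← Real.rpow_add hi']
  congr 2; ring

lemma exists_tau (S : Finset ℕ) (hS : 2 ≤ S.card) :
    ∃ τ : ℕ → ℂ, (∀ n, ‖τ n‖ = 1) ∧ ∑ n ∈ S, τ n = 0 := by
  classical
  set N := S.card with hN
  have hprim := Complex.isPrimitiveRoot_exp N (by omega)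
  set ζ := Complex.exp (2 * Real.pi * Complex.I / N) with hζ
  have hnorm : ‖ζ‖ = 1 := hprim.norm'_eq_one (by omega)
  let e : S ≃ Fin N := S.equivFin
  refine ⟨fun n => if h : n ∈ S then ζ ^ ((e ⟨n, h⟩ : Fin N) : ℕ) else 1, fun n => ?_, ?_⟩
  · dsimp only
    split_ifs
    · rw [norm_pow, hnorm, one_pow]
    · exact norm_one
  · rw [← Finset.sum_coe_sort S]
    have : ∀ x : S, (if h : (x : ℕ) ∈ S then ζ ^ ((e ⟨x, h⟩ : Fin N) : ℕ) else 1) =
        ζ ^ ((e x : Fin N) : ℕ) := fun x => by rw [dif_pos x.2]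
    simp only [this]
    rw [Equiv.sum_comp e (fun k : Fin N => ζ ^ (k : ℕ)), Fin.sum_univ_eq_sum_range (fun k => ζ ^ k)]
    exact hprim.geom_sum_eq_zero (by omega)

lemma mult_bounds (f : ℕ → ℂ) (h1 : f 1 = 1)
    (hmul : ∀ m n : ℕ, 0 < m → 0 < n → f (m * n) = f m * f n) (b : ℝ) (m : ℕ) :
    0 < m → (∀ r : ℕ, r.Prime → r ∣ m → 1 / (r : ℝ) ≤ ‖f r‖ ∧ ‖f r‖ ≤ (r : ℝ) ^ b) →
      1 / (m : ℝ) ≤ ‖f m‖ ∧ ‖f m‖ ≤ (m : ℝ) ^ b := by
  induction m using induction_on_primes with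
  | zero => intro h; omega
  | one => intro _ _; simp [h1]
  | prime_mul p a hp ih =>
    intro hpa hr
    have ha : 0 < a := Nat.pos_of_mul_pos_left hpa
    obtain ⟨i1, i2⟩ := ih ha (fun r hr1 hr2 => hr r hr1 (Dvd.dvd.mul_left hr2 p))
    obtain ⟨j1, j2⟩ := hr p hp (Dvd.intro a rfl)
    rw [hmul p a hp.pos ha, norm_mul]
    push_cast
    have hp0 : (0 : ℝ) < p := by exact_mod_cast hp.pos
    have ha0 : (0 : ℝ) < a := by exact_mod_cast ha
    constructor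
    · rw [← one_div_mul_one_div]
      exact mul_le_mul j1 i1 (by positivity) (norm_nonneg _)
    · rw [Real.mul_rpow hp0.le ha0.le]
      exact mul_le_mul j2 i2 (norm_nonneg _) (Real.rpow_nonneg hp0.le _)

lemma norm_le_one (f : ℕ → ℂ) (h1 : f 1 = 1)
    (hmul : ∀ m n : ℕ, 0 < m → 0 < n → f (m * n) = f m * f n)
    (hp : ∀ p : ℕ, p.Prime → ‖f p‖ ≤ 1) (m : ℕ) : 0 < m → ‖f m‖ ≤ 1 := by
  induction m using induction_on_primes with
  | zero => intro h; omega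
  | one => intro _; simp [h1]
  | prime_mul p a hp' ih =>
    intro hpa
    have ha : 0 < a := Nat.pos_of_mul_pos_left hpa
    rw [hmul p a hp'.pos ha, norm_mul]
    exact mul_le_one₀ (hp p hp') (norm_nonneg _) (ih ha)

lemma PF_spec {n : ℕ} (hn : 2 ≤ n) : (PF n).Prime ∧ PF n ∣ n := by
  have hne : n.primeFactors.Nonempty := Nat.nonempty_primeFactors.2 (by omega)
  obtain ⟨p, hp, hp2⟩ := Finset.exists_mem_eq_sup n.primeFactors hne id
  have : PF n = p := hp2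
  rw [this]
  exact ⟨Nat.prime_of_mem_primeFactors hp, Nat.dvd_of_mem_primeFactors hp⟩

/-- Many non-members in a dyadic range. -/
lemma nonmembers {M : Set ℕ} {CM μ : ℝ} (hμ : μ ≤ 1 / 2) (hCM : 0 < CM) (hS : Sparse M CM μ) :
    ∀ᶠ K : ℕ in atTop, ∃ S : Finset ℕ, (∀ i ∈ S, i ∉ M ∧ K ≤ i ∧ i < 2 * K) ∧
      (K : ℝ) / 2 ≤ S.card := by
  classical
  have h0 := (tendsto_natCast_atTop_atTop (R := ℝ)).eventually
    (ev_log (1 / 2) (4 * CM) (by norm_num) 0)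
  filter_upwards [h0, eventually_ge_atTop 1] with K hK hK1
  simp only [pow_zero, mul_one] at hK
  refine ⟨(Finset.Ico K (2 * K)).filter (fun i => i ∉ M), fun i hi => ?_, ?_⟩
  · rw [Finset.mem_filter, Finset.mem_Ico] at hi
    exact ⟨hi.2, hi.1.1, hi.1.2⟩
  · have h1 := Finset.card_filter_add_card_filter_not (s := Finset.Ico K (2 * K))
      (fun i => i ∈ M)
    rw [Nat.card_Ico] at h1
    have h2 : ((Finset.Ico K (2 * K)).filter (fun i => i ∈ M)).card ≤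
        ((Finset.range (2 * K + 1)).filter (fun c => c ∈ M)).card := by
      refine Finset.card_le_card (Finset.filter_subset_filter _ ?_)
      intro i hi
      rw [Finset.mem_Ico] at hi
      rw [Finset.mem_range]; omega
    have h3 := hS (2 * K) (by omega)
    have hK' : (1 : ℝ) ≤ K := by exact_mod_cast hK1
    have h4 : ((2 * K : ℕ) : ℝ) ^ μ ≤ 2 * (K : ℝ) ^ (1 / 2 : ℝ) := by
      have a1 : ((2 * K : ℕ) : ℝ) ^ μ ≤ ((2 * K : ℕ) : ℝ) ^ (1 / 2 : ℝ) :=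
        Real.rpow_le_rpow_of_exponent_le (by push_cast; linarith) hμ
      have a2 : ((2 * K : ℕ) : ℝ) ^ (1 / 2 : ℝ) = (2 : ℝ) ^ (1 / 2 : ℝ) * (K : ℝ) ^ (1 / 2 : ℝ) := by
        push_cast; rw [Real.mul_rpow (by norm_num) (by linarith)]
      have a3 : (2 : ℝ) ^ (1 / 2 : ℝ) ≤ (2 : ℝ) ^ (1 : ℝ) :=
        Real.rpow_le_rpow_of_exponent_le (by norm_num) (by norm_num)
      rw [Real.rpow_one] at a3
      have a4 : 0 ≤ (K : ℝ) ^ (1 / 2 : ℝ) := Real.rpow_nonneg (by linarith) _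
      nlinarith
    have h5 : (K : ℝ) ^ (1 / 2 : ℝ) * (K : ℝ) ^ (1 / 2 : ℝ) = K := by
      rw [← Real.rpow_add (by linarith)]; norm_num
    have a4 : 0 ≤ (K : ℝ) ^ (1 / 2 : ℝ) := Real.rpow_nonneg (by linarith) _
    have h6 : CM * ((2 * K : ℕ) : ℝ) ^ μ ≤ K / 2 := by
      have := mul_le_mul_of_nonneg_left h4 hCM.le
      nlinarith
    have h7 : (((Finset.Ico K (2 * K)).filter (fun i => i ∈ M)).card : ℝ) +
        (((Finset.Ico K (2 * K)).filter (fun i => ¬ i ∈ M)).card : ℝ) = K := by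
      have : 2 * K - K = K := by omega
      rw [this] at h1
      exact_mod_cast h1
    have h8 : (((Finset.Ico K (2 * K)).filter (fun i => i ∈ M)).card : ℝ) ≤
        (((Finset.range (2 * K + 1)).filter (fun c => c ∈ M)).card : ℝ) := by exact_mod_cast h2
    have h9 : (((Finset.range (2 * K + 1)).filter (fun c => c ∈ M)).card : ℝ) ≤
        CM * ((2 * K : ℕ) : ℝ) ^ μ := by convert h3
    linarith

end Pool.Agent.H676Z.MO
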