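import Mathlib
import Pool.Agent.H676Z.MO.ConB1

set_option autoImplicit false

open Filter Topology Finset

namespace Pool.Agent.H676Z.MO

open Pool.Agent.H392Z.MO

structure Big (A κ ε c₂ : ℝ) (i : ℕ) : Prop where
  three : 3 ≤ i
  t4 : 4 ≤ tt A i
  l2 : 16 * Real.log (tt A i) ^ 2 ≤ tt A i ^ ε
  l3 : 128 * Real.log (tt A i) ^ 2 ≤ tt A i ^ (2 * κ * ε)
  l4 : 33 ≤ tt A i ^ (2 * κ)
  l5 : 2 * Real.log i ≤ c₂ * HH A i

lemma ev_big {A κ ε c₂ : ℝ} (hA : 1 < A) (hκ : 0 < κ) (hε : 0 < ε) (hc : 0 < c₂) :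
    ∀ᶠ i : ℕ in atTop, Big A κ ε c₂ i := by
  have ht := tendsto_tt (A := A) (by linarith)
  filter_upwards [eventually_ge_atTop 3, ht.eventually (eventually_ge_atTop 4),
    ht.eventually (ev_log ε 16 hε 2), ht.eventually (ev_log (2 * κ * ε) 128 (by positivity) 2),
    ht.eventually (ev_log (2 * κ) 33 (by positivity) 0),
    (tendsto_natCast_atTop_atTop (R := ℝ)).eventually
      (ev_log (A - 1) (2 / c₂) (by linarith) 1)] with i h1 h2 h3 h4 h5 h6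
  refine ⟨h1, h2, h3, h4, by simpa using h5, ?_⟩
  rw [pow_one] at h6
  have := mul_le_mul_of_nonneg_left h6 hc.le
  have e : c₂ * (2 / c₂ * Real.log i) = 2 * Real.log i := by field_simp
  unfold HH
  linarith

lemma act_bounds {A κ ε c₂ : ℝ} (hA0 : 0 ≤ A) (hA : A ≤ 2) (hε : 0 < ε) (hε1 : ε ≤ 1) {i n : ℕ}
    (hb : Big A κ ε c₂ i) (hn : n ∈ B A i) {w : ℝ} (h1 : phi ε (tt A i) / 16 ≤ w)
    (h2 : w ≤ 3 / 16 * phi ε (tt A i)) : 1 / (n : ℝ) ≤ w ∧ w ≤ phi ε n := by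
  rw [mem_B] at hn
  have h3 := tt_succ_le hA0 hA hb.three
  have h4 := hb.t4
  constructor
  · have hl : 0 < Real.log (tt A i) := Real.log_pos (by linarith)
    have a1 : 16 ≤ phi ε (tt A i) * tt A i := by
      rw [phi_mul (by linarith), le_div_iff₀ (by positivity)]
      exact hb.l2
    have a2 : 0 ≤ phi ε (tt A i) := phi_nonneg _ (by linarith)
    rw [div_le_iff₀ (by linarith)]
    have a3 : phi ε (tt A i) / 16 * tt A i ≤ w * n :=
      mul_le_mul h1 hn.1 (by linarith) (by linarith)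
    linarith
  · exact h2.trans (phi_lower hε.le hε1 h4 hn.1 (by linarith))

lemma handle_geom {A κ ε c₂ : ℝ} (hA0 : 0 < A) (hA : A ≤ 2) (hκ : 0 < κ) {c q m : ℕ}
    (hb : Big A κ ε c₂ c) (hn : q * m ∈ B A c) (hk : kk κ c ≤ blk A q) :
    m < q ∧ (m : ℝ) ≤ 8 * tt A c ^ (1 / 2 - κ) := by
  rw [mem_B] at hn
  have h3 := tt_succ_le hA0.le hA hb.three
  have h4 := hb.t4
  have hc : (3 : ℝ) ≤ c := by exact_mod_cast hb.three
  set t := tt A c with ht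
  have ht0 : 0 < t := by linarith
  have hq : t ^ (1 / 2 + κ) / 4 ≤ q := by
    have a1 := (le_blk_iff hA0).1 hk
    have a2 : (c : ℝ) ^ (1 / 2 + κ) / 2 ≤ (kk κ c : ℝ) :=
      (Nat.div_two_lt_floor (Real.one_le_rpow (by linarith) (by linarith))).le
    have a3 : ((c : ℝ) ^ (1 / 2 + κ) / 2) ^ A ≤ tt A (kk κ c) :=
      Real.rpow_le_rpow (by positivity) a2 hA0.le
    rw [Real.div_rpow (by positivity) (by norm_num), ← Real.rpow_mul (by linarith), mul_comm,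
      Real.rpow_mul (by linarith)] at a3
    have a4 : (2 : ℝ) ^ A ≤ (2 : ℝ) ^ (2 : ℝ) := Real.rpow_le_rpow_of_exponent_le (by norm_num) hA
    rw [Real.rpow_two] at a4
    have a5 : t ^ (1 / 2 + κ) / 4 ≤ t ^ (1 / 2 + κ) / 2 ^ A :=
      div_le_div_of_nonneg_left (by positivity) (by positivity) (by linarith)
    have a6 : (c : ℝ) ^ A = t := rfl
    rw [a6] at a3
    linarith
  have hu : 0 < t ^ (1 / 2 + κ) := by positivity
  have hv : 0 < t ^ (1 / 2 - κ) := by positivity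
  have huv : t ^ (1 / 2 + κ) * t ^ (1 / 2 - κ) = t := by
    rw [← Real.rpow_add ht0]; norm_num
  have huu : t ^ (1 / 2 + κ) * t ^ (1 / 2 + κ) = t * t ^ (2 * κ) := by
    rw [← Real.rpow_add ht0, mul_comm t, ← Real.rpow_add_one ht0.ne']; congr 1; ring
  have hl4 : 33 ≤ t ^ (2 * κ) := hb.l4
  have hn2 : (q : ℝ) * m < 2 * t := by
    have := hn.2; push_cast at this; linarith
  have hm0 : (0 : ℝ) ≤ m := Nat.cast_nonneg _
  constructor
  · have a1 : 2 * t ≤ (q : ℝ) * q := by nlinarith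
    have a2 : (m : ℝ) < q := by
      by_contra hcon
      have hcon' : (q : ℝ) ≤ m := not_lt.1 hcon
      nlinarith
    exact_mod_cast a2
  · have a1 : t ^ (1 / 2 + κ) / 4 * m ≤ (q : ℝ) * m := mul_le_mul_of_nonneg_right hq hm0
    have a2 : t ^ (1 / 2 + κ) * m ≤ t ^ (1 / 2 + κ) * (8 * t ^ (1 / 2 - κ)) := by nlinarith
    exact le_of_mul_le_mul_left a2 hu

lemma handle_bounds {A κ ε c₂ : ℝ} (hA0 : 0 < A) (hA : A ≤ 2) (hκ : 0 < κ) (hε : 0 < ε)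
    (hε1 : ε ≤ 1 / 2) {c q m : ℕ} (hb : Big A κ ε c₂ c) (hn : q * m ∈ B A c)
    (hk : kk κ c ≤ blk A q) {a b : ℝ} (ha : 0 ≤ a)
    (h1 : phi ε (tt A c) / 16 ≤ a * b) (h2 : a * b ≤ 3 / 16 * phi ε (tt A c))
    (h3 : 1 / (m : ℝ) ≤ b) (h4 : b ≤ (m : ℝ) ^ (2 * ε - 1)) :
    1 / (q : ℝ) ≤ a ∧ a ≤ (q : ℝ) ^ (2 * ε - 1) := by
  obtain ⟨g1, g2⟩ := handle_geom hA0 hA hκ hb hn hk
  obtain ⟨-, g3⟩ := act_bounds hA0.le hA hε (by linarith) hb hn h1 h2
  rw [mem_B] at hn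
  have h5 := hb.t4
  set t := tt A c with ht
  have ht0 : 0 < t := by linarith
  have hn1 : t ≤ (q : ℝ) * m := by have := hn.1; push_cast at this; exact this
  have hm0 : (0 : ℝ) < m := by
    rcases Nat.eq_zero_or_pos m with h | h
    · rw [h] at hn1; simp at hn1; linarith
    · exact_mod_cast h
  have hmq : (m : ℝ) ≤ q := by exact_mod_cast g1.le
  have hq0 : (0 : ℝ) < q := by linarith
  constructor
  · have a1 : (m : ℝ) ^ (2 * ε) ≤ 8 * t ^ (ε - 2 * κ * ε) := by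
      have b1 : (m : ℝ) ^ (2 * ε) ≤ (8 * t ^ (1 / 2 - κ)) ^ (2 * ε) :=
        Real.rpow_le_rpow hm0.le g2 (by linarith)
      rw [Real.mul_rpow (by norm_num) (by positivity), ← Real.rpow_mul ht0.le] at b1
      have b2 : (8 : ℝ) ^ (2 * ε) ≤ (8 : ℝ) ^ (1 : ℝ) :=
        Real.rpow_le_rpow_of_exponent_le (by norm_num) (by linarith)
      rw [Real.rpow_one] at b2
      have b3 : (1 / 2 - κ) * (2 * ε) = ε - 2 * κ * ε := by ring
      rw [b3] at b1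
      have b4 : 0 < t ^ (ε - 2 * κ * ε) := by positivity
      nlinarith
    have hl : 0 < Real.log t := Real.log_pos (by linarith)
    have a2 : 8 * t ^ (ε - 2 * κ * ε) ≤ phi ε t * t / 16 := by
      rw [phi_mul ht0, div_div, le_div_iff₀ (by positivity)]
      have b1 : t ^ ε = t ^ (ε - 2 * κ * ε) * t ^ (2 * κ * ε) := by
        rw [← Real.rpow_add ht0]; congr 1; ring
      have b2 : 128 * Real.log t ^ 2 ≤ t ^ (2 * κ * ε) := hb.l3
      have b4 : 0 < t ^ (ε - 2 * κ * ε) := by positivity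
      rw [b1]
      nlinarith
    have a3 : 0 ≤ phi ε t := phi_nonneg _ ht0.le
    have a4 : phi ε t / 16 ≤ a * (m : ℝ) ^ (2 * ε - 1) :=
      h1.trans (mul_le_mul_of_nonneg_left h4 ha)
    have a5 : (m : ℝ) ^ (2 * ε - 1) * m = (m : ℝ) ^ (2 * ε) := by
      rw [← Real.rpow_add_one hm0.ne']; congr 1; ring
    have a6 : phi ε t / 16 * t ≤ a * (m : ℝ) ^ (2 * ε - 1) * (q * m) :=
      mul_le_mul a4 hn1 ht0.le (by positivity)
    have a7 : a * (m : ℝ) ^ (2 * ε - 1) * (q * m) = (m : ℝ) ^ (2 * ε) * (a * q) := by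
      rw [← a5]; ring
    have a8 : 0 < (m : ℝ) ^ (2 * ε) := by positivity
    have a9 : (m : ℝ) ^ (2 * ε) * 1 ≤ (m : ℝ) ^ (2 * ε) * (a * q) := by linarith
    rw [div_le_iff₀ hq0]
    exact le_of_mul_le_mul_left a9 a8
  · have a1 : phi ε ((q * m : ℕ) : ℝ) ≤ ((q * m : ℕ) : ℝ) ^ (ε - 1) :=
      phi_le (by push_cast; linarith)
    push_cast at a1 g3
    rw [Real.mul_rpow hq0.le hm0.le] at a1
    have a2 : a * (1 / (m : ℝ)) ≤ (q : ℝ) ^ (ε - 1) * (m : ℝ) ^ (ε - 1) :=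
      (mul_le_mul_of_nonneg_left h3 ha).trans (g3.trans a1)
    have a5 : (m : ℝ) ^ (ε - 1) * m = (m : ℝ) ^ ε := by
      rw [← Real.rpow_add_one hm0.ne']; congr 1; ring
    have a3 : a ≤ (q : ℝ) ^ (ε - 1) * (m : ℝ) ^ ε := by
      have := mul_le_mul_of_nonneg_right a2 hm0.le
      have e : a * (1 / (m : ℝ)) * m = a := by field_simp
      rw [e, mul_assoc, a5] at this
      exact this
    have a4 : (m : ℝ) ^ ε ≤ (q : ℝ) ^ ε := Real.rpow_le_rpow hm0.le hmq hε.le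
    have a6 : (q : ℝ) ^ (2 * ε - 1) = (q : ℝ) ^ (ε - 1) * (q : ℝ) ^ ε := by
      rw [← Real.rpow_add hq0]; congr 1; ring
    rw [a6]
    exact a3.trans (mul_le_mul_of_nonneg_left a4 (by positivity))

/-- The properties of the constructed function that are used. -/
structure Good (A κ σ ε : ℝ) (M : Set ℕ) (i₁ : ℕ) (f : ℕ → ℂ) : Prop where
  one : f 1 = 1
  mul : ∀ m n : ℕ, 0 < m → 0 < n → f (m * n) = f m * f n
  small : ∀ p : ℕ, p.Prime → (p : ℝ) ≤ tt A i₁ ^ σ → f p = 0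
  dflt : ∀ p : ℕ, p.Prime → tt A i₁ ^ σ < (p : ℝ) → ¬ IsH A κ σ M i₁ p →
    ¬ (i₁ ≤ blk A p ∧ p ∈ Act A κ σ M (tt A i₁ ^ σ) (blk A p)) → f p = 1 / (p : ℂ)
  act : ∀ i : ℕ, i₁ ≤ i → ∀ n ∈ Act A κ σ M (tt A i₁ ^ σ) i,
    phi ε (tt A i) / 16 ≤ ‖f n‖ ∧ ‖f n‖ ≤ 3 / 16 * phi ε (tt A i)

lemma norm_inv_nat (p : ℕ) : ‖(1 / (p : ℂ))‖ = 1 / (p : ℝ) := by
  simp

lemma prime_bounds {A κ σ ε c₂ : ℝ} {M : Set ℕ} {i₁ : ℕ} {f : ℕ → ℂ} (hA0 : 0 < A) (hA : A ≤ 2)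
    (hκ : 0 < κ) (hσ : 0 < σ) (hε : 0 < ε) (hε1 : ε ≤ 1 / 2)
    (hb : ∀ i, i₁ ≤ i → Big A κ ε c₂ i) (hy : 3 ≤ tt A i₁ ^ σ) (hf : Good A κ σ ε M i₁ f)
    (p : ℕ) : p.Prime → tt A i₁ ^ σ < (p : ℝ) →
      1 / (p : ℝ) ≤ ‖f p‖ ∧ ‖f p‖ ≤ (p : ℝ) ^ (2 * ε - 1) := by
  induction p using Nat.strong_induction_on with
  | _ p ih =>
  intro hp hyp
  have hp3 : (3 : ℝ) ≤ p := by linarith
  by_cases hH : IsH A κ σ M i₁ p
  · obtain ⟨c, hcM, hc, n, hn, hPF⟩ := hH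
    have hact := hf.act c hc n (by rw [Act_of_mem _ hcM]; exact hn)
    simp only [Hand, Finset.mem_filter] at hn
    obtain ⟨hnB, hR, hk, -⟩ := hn
    have hn4 : (4 : ℝ) ≤ n := (hb c hc).t4.trans (mem_B.1 hnB).1
    have hn2 : 2 ≤ n := by
      have : (2 : ℝ) ≤ n := by linarith
      exact_mod_cast this
    obtain ⟨-, m, hm⟩ := PF_spec hn2
    rw [hPF] at hm hk
    have hm0 : 0 < m := by
      rcases Nat.eq_zero_or_pos m with h | h
      · rw [h] at hm; omega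
      · exact h
    rw [hm] at hnB hact
    obtain ⟨g1, -⟩ := handle_geom hA0 hA hκ (hb c hc) hnB hk
    have hmb := mult_bounds f hf.one hf.mul (2 * ε - 1) m hm0 (fun r hr hrm => by
      refine ih r (lt_of_le_of_lt (Nat.le_of_dvd hm0 hrm) g1) hr ?_
      have b1 := hR r hr (by rw [hm]; exact Dvd.dvd.mul_left hrm p)
      have b2 : tt A i₁ ^ σ ≤ tt A c ^ σ :=
        Real.rpow_le_rpow (tt_nonneg _ _) (tt_mono hA0.le hc) hσ.le
      linarith)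
    rw [hf.mul p m hp.pos hm0, norm_mul] at hact
    exact handle_bounds hA0 hA hκ hε hε1 (hb c hc) hnB hk (norm_nonneg _) hact.1 hact.2
      hmb.1 hmb.2
  · by_cases hAct : i₁ ≤ blk A p ∧ p ∈ Act A κ σ M (tt A i₁ ^ σ) (blk A p)
    · have hact := hf.act _ hAct.1 p hAct.2
      obtain ⟨g1, g2⟩ := act_bounds hA0.le hA hε (by linarith) (hb _ hAct.1) (mem_B_blk hA0 p)
        hact.1 hact.2
      refine ⟨g1, g2.trans ((phi_le hp3).trans ?_)⟩
      exact Real.rpow_le_rpow_of_exponent_le (by linarith) (by linarith)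
    · rw [hf.dflt p hp hyp hH hAct, norm_inv_nat]
      refine ⟨le_rfl, ?_⟩
      rw [one_div, ← Real.rpow_neg_one]
      exact Real.rpow_le_rpow_of_exponent_le (by linarith) (by linarith)

lemma adm_of_good {A κ σ ε c₂ : ℝ} {M : Set ℕ} {i₁ : ℕ} {f : ℕ → ℂ} (hA0 : 0 < A) (hA : A ≤ 2)
    (hκ : 0 < κ) (hσ : 0 < σ) (hε : 0 < ε) (hε1 : ε ≤ 1 / 2)
    (hb : ∀ i, i₁ ≤ i → Big A κ ε c₂ i) (hy : 3 ≤ tt A i₁ ^ σ)
    (hy2 : ∀ p : ℝ, tt A i₁ ^ σ < p → Real.log p ^ 2 ≤ p ^ ε) (hf : Good A κ σ ε M i₁ f) :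
    Adm A κ σ ε M i₁ (fun n => ‖f n‖) where
  nonneg := fun n => norm_nonneg _
  one := by simp [hf.one]
  mul := fun m n hm hn => by simp only [hf.mul m n hm hn, norm_mul]
  small := fun p hp h => by simp only [hf.small p hp h, norm_zero]
  normal := fun p hp hH => by
    by_cases hyp : (p : ℝ) ≤ tt A i₁ ^ σ
    · simp only [hf.small p hp hyp, norm_zero]
      exact phi_nonneg _ (Nat.cast_nonneg _)
    · have hyp' := not_le.1 hyp
      by_cases hAct : i₁ ≤ blk A p ∧ p ∈ Act A κ σ M (tt A i₁ ^ σ) (blk A p)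
      · have hact := hf.act _ hAct.1 p hAct.2
        exact (act_bounds hA0.le hA hε (by linarith) (hb _ hAct.1) (mem_B_blk hA0 p)
          hact.1 hact.2).2
      · simp only [hf.dflt p hp hyp' hH hAct, norm_inv_nat]
        have hp0 : (0 : ℝ) < p := by linarith
        have hl : 0 < Real.log p := Real.log_pos (by linarith)
        rw [div_le_iff₀ hp0, phi_mul hp0, le_div_iff₀ (by positivity), one_mul]
        exact hy2 p hyp'
  dflt := fun p hp hH hAct => by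
    by_cases hyp : (p : ℝ) ≤ tt A i₁ ^ σ
    · simp only [hf.small p hp hyp, norm_zero]
      positivity
    · simp only [hf.dflt p hp (not_le.1 hyp) hH (fun h => hAct h.2), norm_inv_nat]
      exact le_rfl
  handle := fun q hq _ => by
    by_cases hyp : (q : ℝ) ≤ tt A i₁ ^ σ
    · simp only [hf.small q hq hyp, norm_zero]
      positivity
    · exact (prime_bounds hA0 hA hκ hσ hε hε1 hb hy hf q hq (not_le.1 hyp)).2
  handNum := fun c hcM hc n hn => by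
    have hn' : n ∈ Act A κ σ M (tt A i₁ ^ σ) c := by rw [Act_of_mem _ hcM]; exact hn
    have hact := hf.act c hc n hn'
    exact (act_bounds hA0.le hA hε (by linarith) (hb _ hc) (Act_subset _ _ _ _ _ _ hn')
      hact.1 hact.2).2

lemma prime_lt_one {A κ σ ε c₂ : ℝ} {M : Set ℕ} {i₁ : ℕ} {f : ℕ → ℂ} (hA0 : 0 < A) (hA : A ≤ 2)
    (hκ : 0 < κ) (hσ : 0 < σ) (hε : 0 < ε) (hε1 : ε < 1 / 2)
    (hb : ∀ i, i₁ ≤ i → Big A κ ε c₂ i) (hy : 3 ≤ tt A i₁ ^ σ) (hf : Good A κ σ ε M i₁ f)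
    (p : ℕ) (hp : p.Prime) : ‖f p‖ < 1 := by
  by_cases hyp : (p : ℝ) ≤ tt A i₁ ^ σ
  · simp only [hf.small p hp hyp, norm_zero]
    exact one_pos
  · refine lt_of_le_of_lt (prime_bounds hA0 hA hκ hσ hε hε1.le hb hy hf p hp (not_le.1 hyp)).2 ?_
    exact Real.rpow_lt_one_of_one_lt_of_neg (by linarith [not_le.1 hyp]) (by linarith)

end Pool.Agent.H676Z.MO
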