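import Mathlib
import Pool.Agent.H676Z.MO.ConB2

set_option autoImplicit false

open Filter Topology Finset

namespace Pool.Agent.H676Z.MO

open Pool.Agent.H392Z.MO

lemma sum_blocks {A : ℝ} (hA : 0 ≤ A) (f : ℕ → ℂ) {i₁ : ℕ} (h1 : 1 ≤ ⌈tt A i₁⌉₊) (s : ℕ → ℝ)
    (hs : ∀ i, i₁ ≤ i → ∑ n ∈ B A i, f n = -((s i : ℂ) * ∑ n ∈ Finset.Ico 1 ⌈tt A i₁⌉₊, f n))
    (i : ℕ) (hi : i₁ ≤ i) :
    ∑ n ∈ Finset.Ico 1 ⌈tt A i⌉₊, f n =
      (1 - ((∑ j ∈ Finset.Ico i₁ i, s j : ℝ) : ℂ)) * ∑ n ∈ Finset.Ico 1 ⌈tt A i₁⌉₊, f n := by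
  induction i, hi using Nat.le_induction with
  | base => simp
  | succ i hi ih =>
    have h2 : ⌈tt A i₁⌉₊ ≤ ⌈tt A i⌉₊ := Nat.ceil_le_ceil (tt_mono hA hi)
    have h3 : ⌈tt A i⌉₊ ≤ ⌈tt A (i + 1)⌉₊ := Nat.ceil_le_ceil (tt_mono hA (by omega))
    rw [← Finset.sum_Ico_consecutive f (h1.trans h2) h3, ih, Finset.sum_Ico_succ_top hi]
    have := hs i hi
    unfold B at this
    rw [this]
    push_cast
    ring

lemma final_limit {A ε C : ℝ} (hA1 : 1 ≤ A) (hA : A ≤ 2) (he : A / 2 + A * ε - 1 < 0)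
    (f : ℕ → ℂ) (i₂ : ℕ)
    (h0 : ∀ i, i₂ ≤ i → ∑ n ∈ Finset.Ico 1 ⌈tt A i⌉₊, f n = 0)
    (h1 : ∀ i, i₂ ≤ i → ∑ n ∈ B A i, ‖f n‖ ≤ C * (phi ε (tt A i) * HH A i)) :
    Tendsto (fun x : ℝ => Real.sqrt x * ‖∑ n ∈ Finset.Icc 1 ⌊x⌋₊, f n‖) atTop (𝓝 0) := by
  have hA0 : 0 < A := by linarith
  have hblk : Tendsto (fun x : ℝ => blk A ⌊x⌋₊) atTop atTop :=
    (tendsto_blk hA0).comp tendsto_nat_floor_atTop
  have hlim : Tendsto (fun i : ℕ => 2 * |C| * (i : ℝ) ^ (A / 2 + A * ε - 1)) atTop (𝓝 0) := by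
    have h2 := (tendsto_rpow_neg_atTop (y := -(A / 2 + A * ε - 1)) (by linarith)).comp
      (tendsto_natCast_atTop_atTop (R := ℝ))
    simp only [neg_neg] at h2
    simpa using h2.const_mul (2 * |C|)
  refine squeeze_zero' (Eventually.of_forall fun x => by positivity) ?_ (hlim.comp hblk)
  filter_upwards [hblk.eventually (eventually_ge_atTop i₂), hblk.eventually (eventually_ge_atTop 3)]
    with x hx hx3
  simp only [Function.comp]
  set N := ⌊x⌋₊ with hN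
  set i := blk A N with hi
  have hNB := mem_B_blk hA0 N
  rw [← hi] at hNB
  have hi3 : (3 : ℝ) ≤ i := by exact_mod_cast hx3
  have ht1 : 1 ≤ tt A i := Real.one_le_rpow (by linarith) hA0.le
  have hc1 : 1 ≤ ⌈tt A i⌉₊ := by
    rw [Nat.one_le_ceil_iff]; linarith
  have hNB' := hNB
  unfold B at hNB'
  rw [Finset.mem_Ico] at hNB'
  have hsplit : ∑ n ∈ Finset.Icc 1 N, f n = ∑ n ∈ Finset.Ico ⌈tt A i⌉₊ (N + 1), f n := by
    rw [← Finset.Ico_add_one_right_eq_Icc,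
      ← Finset.sum_Ico_consecutive f hc1 (show ⌈tt A i⌉₊ ≤ N + 1 by omega), h0 i hx, zero_add]
  have hb1 : ‖∑ n ∈ Finset.Icc 1 N, f n‖ ≤ |C| * (i : ℝ) ^ (A * ε - 1) := by
    rw [hsplit]
    refine (norm_sum_le _ _).trans ?_
    have a1 : ∑ n ∈ Finset.Ico ⌈tt A i⌉₊ (N + 1), ‖f n‖ ≤ ∑ n ∈ B A i, ‖f n‖ := by
      refine Finset.sum_le_sum_of_subset_of_nonneg ?_ (fun _ _ _ => norm_nonneg _)
      unfold B
      exact Finset.Ico_subset_Ico le_rfl (by omega)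
    have a2 := h1 i hx
    have a3 : 0 ≤ phi ε (tt A i) * HH A i :=
      mul_nonneg (phi_nonneg _ (tt_nonneg _ _)) (HH_pos A (by omega)).le
    have a4 : phi ε (tt A i) * HH A i ≤ (i : ℝ) ^ (A * ε - 1) := by
      rw [phi_HH (by omega)]
      have b1 : 1 ≤ Real.log i := by
        rw [Real.le_log_iff_exp_le (by linarith)]
        have := Real.exp_one_lt_d9
        linarith
      have b2 : 1 ≤ A * Real.log i := by nlinarith
      exact div_le_self (by positivity) (by nlinarith)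
    have a5 : C * (phi ε (tt A i) * HH A i) ≤ |C| * (phi ε (tt A i) * HH A i) :=
      mul_le_mul_of_nonneg_right (le_abs_self C) a3
    have a6 := mul_le_mul_of_nonneg_left a4 (abs_nonneg C)
    linarith
  have hb2 : Real.sqrt x ≤ 2 * (i : ℝ) ^ (A / 2) := by
    rw [Real.sqrt_le_iff]
    refine ⟨by positivity, ?_⟩
    have a1 : x < N + 1 := Nat.lt_floor_add_one x
    have a2 := (mem_B.1 hNB).2
    have a3 := tt_succ_le hA0.le hA hx3
    have a4 : ((i : ℝ) ^ (A / 2)) ^ 2 = tt A i := by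
      unfold tt
      rw [← Real.rpow_natCast, ← Real.rpow_mul (by linarith)]
      congr 1; push_cast; ring
    rw [mul_pow, a4]
    linarith
  have hb3 : (i : ℝ) ^ (A / 2 + A * ε - 1) = (i : ℝ) ^ (A / 2) * (i : ℝ) ^ (A * ε - 1) := by
    rw [← Real.rpow_add (by linarith)]; congr 1; ring
  rw [hb3]
  calc _ ≤ (2 * (i : ℝ) ^ (A / 2)) * (|C| * (i : ℝ) ^ (A * ε - 1)) :=
        mul_le_mul hb2 hb1 (norm_nonneg _) (by positivity)
    _ = _ := by ring

theorem conB : Pool.Agent.H392Z.MO.S_ConB := by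
  classical
  intro A κ σ ε μ CM c₂ M hσ hσκ hκ hA1 hA2 hε hε2 _ hμ hCM hc₂ hSp hMany hEst hStr
  have hA : 1 < A := by linarith
  have hA0 : 0 < A := by linarith
  have hκ0 : 0 < κ := by linarith
  have hAε : A / 2 + A * ε - 1 < 0 := by
    have := mul_lt_mul_of_pos_left hε2 hA0
    rw [mul_sub, mul_one_div_cancel hA0.ne'] at this
    linarith
  have hε1 : ε < 1 / 2 := by nlinarith
  obtain ⟨iM, hM⟩ := hMany
  obtain ⟨iE, hE⟩ := hEst (c₂ / 32) (by positivity)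
  obtain ⟨iS, hS⟩ := hStr
  obtain ⟨iB, hB⟩ := eventually_atTop.1 (ev_big (c₂ := c₂) hA hκ0 hε hc₂)
  obtain ⟨Y, hY⟩ := eventually_atTop.1 (ev_log ε 1 hε 2)
  obtain ⟨iY, hiY⟩ := eventually_atTop.1
    (((tendsto_rpow_atTop hσ).comp (tendsto_tt hA0)).eventually (eventually_ge_atTop (max Y 3)))
  obtain ⟨i₁, h1M, h1E, h1S, h1B, h1Y⟩ :
      ∃ i₁, iM ≤ i₁ ∧ iE ≤ i₁ ∧ iS ≤ i₁ ∧ iB ≤ i₁ ∧ iY ≤ i₁ :=
    ⟨iM + iE + iS + iB + iY, by omega, by omega, by omega, by omega, by omega⟩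
  have hb : ∀ i, i₁ ≤ i → Big A κ ε c₂ i := fun i hi => hB i (h1B.trans hi)
  have hyY : max Y 3 ≤ tt A i₁ ^ σ := hiY i₁ h1Y
  have hy : 3 ≤ tt A i₁ ^ σ := (le_max_right _ _).trans hyY
  have hy2 : ∀ p : ℝ, tt A i₁ ^ σ < p → Real.log p ^ 2 ≤ p ^ ε := fun p hp => by
    have := hY p (((le_max_left _ _).trans hyY).trans hp.le)
    linarith
  -- the choice of `K` and `s`
  obtain ⟨K₀, hK₀⟩ := eventually_atTop.1 ((tendsto_natCast_atTop_atTop (R := ℝ)).eventually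
    (ev_log (A * ε) (16 * (tt A i₁ + 1) / (c₂ / 32)) (by positivity) 3))
  obtain ⟨K, ⟨S, hS1, hS2⟩, hK1, hK2⟩ := ((nonmembers hμ hCM hSp).and
    ((eventually_ge_atTop i₁).and (eventually_ge_atTop K₀))).exists
  have hK3 : (3 : ℝ) ≤ K := by exact_mod_cast (hb K hK1).three
  have hScard : (0 : ℝ) < S.card := by linarith
  set s : ℕ → ℝ := fun i => if i ∈ S then 1 / (S.card : ℝ) else 0 with hs
  have hsM : ∀ i ∈ M, s i = 0 := fun i hi => if_neg (fun h => (hS1 i h).1 hi)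
  have hs0 : ∀ i, 0 ≤ s i := fun i => by
    simp only [hs]; split_ifs <;> positivity
  have hsb : ∀ i, i₁ ≤ i →
      s i * (tt A i₁ + 1) ≤ c₂ / 32 * phi ε (tt A i) * HH A i / Real.log i := by
    intro i hi
    have hi3 : (3 : ℝ) ≤ i := by exact_mod_cast (hb i hi).three
    have hl : 0 < Real.log i := Real.log_pos (by linarith)
    have hHH := HH_pos A (i := i) (by have := (hb i hi).three; omega)
    have hph := phi_nonneg ε (tt_nonneg A i)
    simp only [hs]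
    split_ifs with hiS
    · obtain ⟨-, g1, g2⟩ := hS1 i hiS
      have g3 := hK₀ i (hK2.trans g1)
      have g4 : (i : ℝ) ≤ 2 * K := by exact_mod_cast g2.le
      have g5 : 1 / (S.card : ℝ) ≤ 4 / i := by
        rw [div_le_div_iff₀ hScard (by linarith)]; linarith
      have ht0 := tt_nonneg A i₁
      refine (mul_le_mul_of_nonneg_right g5 (by linarith)).trans ?_
      rw [mul_assoc, phi_HH (by have := (hb i hi).three; omega), le_div_iff₀ hl,
        Real.rpow_sub_one (by linarith), ← mul_div_assoc, le_div_iff₀ (by positivity)]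
      rw [div_mul_eq_mul_div, div_le_iff₀ (by positivity)] at g3
      have g6 : 4 / (i : ℝ) * (tt A i₁ + 1) * Real.log i * (A * Real.log i) ^ 2 =
          (4 * A ^ 2 * (tt A i₁ + 1) * Real.log i ^ 3) / i := by ring
      have g7 : c₂ / 32 * ((i : ℝ) ^ (A * ε) / i) = ((i : ℝ) ^ (A * ε) * (c₂ / 32)) / i := by ring
      rw [g6, g7]
      refine div_le_div_of_nonneg_right (le_trans ?_ g3) (by linarith)
      have g8 : 4 * A ^ 2 ≤ 16 := by nlinarith
      have g9 : 0 ≤ (tt A i₁ + 1) * Real.log i ^ 3 := by positivity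
      nlinarith
    · rw [zero_mul]; positivity
  -- the choice of `Φ`
  have hτ : ∀ i : ℕ, ∃ τ : ℕ → ℂ, (∀ n, ‖τ n‖ = 1) ∧
      (2 ≤ (Act A κ σ M (tt A i₁ ^ σ) i).card → ∑ n ∈ Act A κ σ M (tt A i₁ ^ σ) i, τ n = 0) := by
    intro i
    by_cases h : 2 ≤ (Act A κ σ M (tt A i₁ ^ σ) i).card
    · obtain ⟨τ, h1, h2⟩ := exists_tau _ h
      exact ⟨τ, h1, fun _ => h2⟩
    · exact ⟨fun _ => 1, fun _ => norm_one, fun h' => absurd h' h⟩
  choose τ hτ1 hτ2 using hτ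
  set cl : ℕ → ℂ → ℂ := fun i w => if ‖w‖ ≤ phi ε (tt A i) / 16 then w else 0 with hcl
  have hclb : ∀ i w, ‖cl i w‖ ≤ phi ε (tt A i) / 16 := fun i w => by
    simp only [hcl]
    split_ifs with h
    · exact h
    · rw [norm_zero]
      have := phi_nonneg ε (tt_nonneg A i)
      positivity
  set Φ : ℕ → ℂ → ℕ → ℂ := fun i D n => if i₁ ≤ i then
    cl i (-D / ((Act A κ σ M (tt A i₁ ^ σ) i).card : ℂ)) + ((phi ε (tt A i) / 8 : ℝ) : ℂ) * τ i n
    else 1 with hΦ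
  have hΦb : ∀ i D n, i₁ ≤ i →
      phi ε (tt A i) / 16 ≤ ‖Φ i D n‖ ∧ ‖Φ i D n‖ ≤ 3 / 16 * phi ε (tt A i) := by
    intro i D n hi
    simp only [hΦ, if_pos hi]
    have g1 := hclb i (-D / ((Act A κ σ M (tt A i₁ ^ σ) i).card : ℂ))
    have g2 : ‖((phi ε (tt A i) / 8 : ℝ) : ℂ) * τ i n‖ = phi ε (tt A i) / 8 := by
      have := phi_nonneg ε (tt_nonneg A i)
      rw [norm_mul, hτ1, mul_one, Complex.norm_real, Real.norm_of_nonneg (by positivity)]
    constructor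
    · have := norm_sub_norm_le (((phi ε (tt A i) / 8 : ℝ) : ℂ) * τ i n)
        (-cl i (-D / ((Act A κ σ M (tt A i₁ ^ σ) i).card : ℂ)))
      rw [norm_neg, sub_neg_eq_add, add_comm, g2] at this
      linarith
    · have := norm_add_le (cl i (-D / ((Act A κ σ M (tt A i₁ ^ σ) i).card : ℂ)))
        (((phi ε (tt A i) / 8 : ℝ) : ℂ) * τ i n)
      linarith
  have hΦ0 : ∀ i D n, Φ i D n ≠ 0 := by
    intro i D n
    by_cases hi : i₁ ≤ i
    · have g1 := (hΦb i D n hi).1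
      have g2 := phi_pos ε (t := tt A i) (by linarith [(hb i hi).t4])
      intro h
      rw [h, norm_zero] at g1
      linarith
    · simp only [hΦ, if_neg hi]
      exact one_ne_zero
  obtain ⟨f, f1, f2, f3, f4, f5⟩ := hS i₁ h1S s hsM Φ hΦ0
  have hf : Good A κ σ ε M i₁ f :=
    ⟨f1, f2, f3, f4, fun i hi n hn => by rw [f5 i hi n hn]; exact hΦb i _ n hi⟩
  have hadm := adm_of_good hA0 hA2.le hκ0 hσ hε hε1.le hb hy hy2 hf
  have hlt := prime_lt_one hA0 hA2.le hκ0 hσ hε hε1 hb hy hf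
  have hle := norm_le_one f f1 f2 (fun p hp => (hlt p hp).le)
  have hR0 : ‖∑ n ∈ Finset.Ico 1 ⌈tt A i₁⌉₊, f n‖ ≤ tt A i₁ + 1 := by
    refine (norm_sum_le _ _).trans ?_
    have g1 : ∑ n ∈ Finset.Ico 1 ⌈tt A i₁⌉₊, ‖f n‖ ≤ ∑ _n ∈ Finset.Ico 1 ⌈tt A i₁⌉₊, (1 : ℝ) :=
      Finset.sum_le_sum (fun n hn => hle n (Finset.mem_Ico.1 hn).1)
    rw [Finset.sum_const, Nat.card_Ico, nsmul_eq_mul, mul_one] at g1
    have g2 : ((⌈tt A i₁⌉₊ - 1 : ℕ) : ℝ) ≤ ⌈tt A i₁⌉₊ := by exact_mod_cast Nat.sub_le _ _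
    have g3 := Nat.ceil_lt_add_one (tt_nonneg A i₁)
    linarith
  have hpass := hE i₁ h1E _ hadm
  have hblock : ∀ i, i₁ ≤ i →
      ∑ n ∈ B A i, f n = -((s i : ℂ) * ∑ n ∈ Finset.Ico 1 ⌈tt A i₁⌉₊, f n) := by
    intro i hi
    have hi3 : (3 : ℝ) ≤ i := by exact_mod_cast (hb i hi).three
    have hl : 0 < Real.log i := Real.log_pos (by linarith)
    have hph := phi_nonneg ε (tt_nonneg A i)
    have g1 := hM i₁ h1M i hi
    have g2 : (2 : ℝ) ≤ (Act A κ σ M (tt A i₁ ^ σ) i).card := by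
      refine le_trans ?_ g1
      rw [le_div_iff₀ hl]
      exact (hb i hi).l5
    have g3 : 2 ≤ (Act A κ σ M (tt A i₁ ^ σ) i).card := by exact_mod_cast g2
    have g4 : ‖DD A κ σ M i₁ s f i‖ ≤
        (Act A κ σ M (tt A i₁ ^ σ) i).card * (phi ε (tt A i) / 16) := by
      unfold DD
      refine (norm_add_le _ _).trans ?_
      have a1 : ‖(s i : ℂ) * ∑ n ∈ Finset.Ico 1 ⌈tt A i₁⌉₊, f n‖ ≤ s i * (tt A i₁ + 1) := by
        rw [norm_mul, Complex.norm_real, Real.norm_of_nonneg (hs0 i)]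
        exact mul_le_mul_of_nonneg_left hR0 (hs0 i)
      have a2 := (norm_sum_le _ _).trans (hpass i hi)
      have a3 := hsb i hi
      have a4 := mul_le_mul_of_nonneg_right g1 (show 0 ≤ phi ε (tt A i) / 16 by positivity)
      have a5 : c₂ * HH A i / Real.log i * (phi ε (tt A i) / 16) =
          2 * (c₂ / 32 * phi ε (tt A i) * HH A i / Real.log i) := by ring
      linarith
    have g5 : cl i (-DD A κ σ M i₁ s f i / ((Act A κ σ M (tt A i₁ ^ σ) i).card : ℂ)) =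
        -DD A κ σ M i₁ s f i / ((Act A κ σ M (tt A i₁ ^ σ) i).card : ℂ) := by
      simp only [hcl]
      rw [if_pos]
      rw [norm_div, norm_neg, Complex.norm_natCast, div_le_iff₀ (by linarith)]
      linarith
    have g6 : ∑ n ∈ Act A κ σ M (tt A i₁ ^ σ) i, f n = -DD A κ σ M i₁ s f i := by
      rw [Finset.sum_congr rfl (fun n hn => f5 i hi n hn)]
      simp only [hΦ, if_pos hi, g5]
      rw [Finset.sum_add_distrib, ← Finset.mul_sum, hτ2 i g3, mul_zero, add_zero, Finset.sum_const,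
        nsmul_eq_mul]
      have : ((Act A κ σ M (tt A i₁ ^ σ) i).card : ℂ) ≠ 0 := by
        have : (Act A κ σ M (tt A i₁ ^ σ) i).card ≠ 0 := by omega
        exact_mod_cast this
      field_simp
    rw [← Finset.sum_sdiff (Act_subset A κ σ M (tt A i₁ ^ σ) i), g6]
    unfold DD
    ring
  refine ⟨f, f1, f2, hlt, final_limit (C := c₂ / 32 + 1) hA.le hA2.le hAε f (2 * K) ?_ ?_⟩
  · intro i hi
    have hc1 : 1 ≤ ⌈tt A i₁⌉₊ := by
      rw [Nat.one_le_ceil_iff]; linarith [(hb i₁ le_rfl).t4]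
    rw [sum_blocks hA0.le f hc1 s hblock i (by omega)]
    have g1 : ∑ j ∈ Finset.Ico i₁ i, s j = 1 := by
      simp only [hs]
      rw [← Finset.sum_filter, Finset.filter_mem_eq_inter, Finset.inter_eq_right.2, Finset.sum_const,
        nsmul_eq_mul, mul_one_div_cancel hScard.ne']
      intro j hj
      obtain ⟨-, g1, g2⟩ := hS1 j hj
      rw [Finset.mem_Ico]
      omega
    rw [g1]
    simp
  · intro i hi
    have hi1 : i₁ ≤ i := by omega
    have hi3 : (3 : ℝ) ≤ i := by exact_mod_cast (hb i hi1).three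
    have hph := phi_nonneg ε (tt_nonneg A i)
    have hHH := HH_pos A (i := i) (by have := (hb i hi1).three; omega)
    rw [← Finset.sum_sdiff (Act_subset A κ σ M (tt A i₁ ^ σ) i)]
    have a1 := hpass i hi1
    have b1 : 1 ≤ Real.log i := by
      rw [Real.le_log_iff_exp_le (by linarith)]
      have := Real.exp_one_lt_d9
      linarith
    have a2 : c₂ / 32 * phi ε (tt A i) * HH A i / Real.log i ≤ c₂ / 32 * phi ε (tt A i) * HH A i :=
      div_le_self (by positivity) b1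
    have a3 : ∑ n ∈ Act A κ σ M (tt A i₁ ^ σ) i, ‖f n‖ ≤
        ∑ _n ∈ Act A κ σ M (tt A i₁ ^ σ) i, 3 / 16 * phi ε (tt A i) :=
      Finset.sum_le_sum (fun n hn => (hf.act i hi1 n hn).2)
    rw [Finset.sum_const, nsmul_eq_mul] at a3
    have a4 : ((Act A κ σ M (tt A i₁ ^ σ) i).card : ℝ) ≤ 4 * HH A i := by
      refine le_trans ?_ (card_B_le hA.le hA2.le (by have := (hb i hi1).three; omega))
      exact_mod_cast Finset.card_le_card (Act_subset A κ σ M (tt A i₁ ^ σ) i)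
    have a5 := mul_le_mul_of_nonneg_right a4 (show 0 ≤ 3 / 16 * phi ε (tt A i) by positivity)
    have a6 : 0 ≤ phi ε (tt A i) * HH A i := by positivity
    nlinarith

end Pool.Agent.H676Z.MO
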